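import Pool.Agent.K1H79.RN.Sign
import Pool.Agent.Y18.BSD.Eleven

/-!
# Simultaneous non-vanishing of two quadratic twists fails: root numbers

Q1 asks whether for every newform `f` and every quadratic character `χ` there is a quadratic character
`ψ` with `L(f ⊗ ψ, 1/2) L(f ⊗ χψ, 1/2) ≠ 0`.  The answer is no, and the negated form is proved:

* for every newform `f` of level one or of prime level `N`, of even weight, and every quadratic
  character `χ` with `χ(-1) = -1` and `χ(N) = 1`, for every quadratic character `ψ` (of any conductor,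
  also divisible by `N`) at least one of `L(f ⊗ ψ, 1/2)` and `L(f ⊗ χψ, 1/2)` vanishes;
* in particular for the newform `η(z)² η(11z)²` of the elliptic curve `X_0(11)`, and for example the
  quadratic character of `ℚ(√-7)`.

The functional equations of all twists `f ⊗ ψ` by real primitive characters `ψ`, with their signs
`ε ψ(-N)` (conductor prime to `N`) and `i^k ψ(-1)` (`N` divides the conductor), are proved; the signs of
`f ⊗ ψ` and `f ⊗ χψ` are always opposite.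
-/

set_option autoImplicit false

open UpperHalfPlane MatrixGroups CongruenceSubgroup

namespace Pool.Agent.Results.MP_d17ed7_nt.RootNumberObstruction

/-- The `n`-th Fourier coefficient `a(n)` of `f(τ) = ∑ a(n) e^(2πinτ)`. -/
noncomputable def a {N : ℕ} {k : ℤ} (f : CuspForm (Gamma0 N : Subgroup (GL (Fin 2) ℝ)) k) (n : ℕ) :
    ℂ := (qExpansion 1 f).coeff n

/-- The properties of a newform `f ∈ S_k(Γ₀(N))` with trivial character that are used: `a(1) = 1`,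
real Fourier coefficients, the Hecke relations `a(mn) = a(m) a(n)` for coprime `m`, `n` and
`a(p^(j+2)) = a(p) a(p^(j+1)) - p^(k-1) a(p^j)` (without the last term if `p ∣ N`), and `f` is an
eigenfunction of the Fricke involution: `f(-1/(Nτ)) = ε (√N τ/i)^k f(τ)` with `ε = ±1`. -/
structure IsNewform (N : ℕ) (k : ℤ) (f : CuspForm (Gamma0 N : Subgroup (GL (Fin 2) ℝ)) k) :
    Prop where
  one : a f 1 = 1
  real : ∀ n, (a f n).im = 0
  mul : ∀ m n : ℕ, Nat.Coprime m n → a f (m * n) = a f m * a f n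
  pow : ∀ p j : ℕ, p.Prime → a f (p ^ (j + 2)) = a f p * a f (p ^ (j + 1)) -
      (if p ∣ N then 0 else (p : ℂ) ^ (k - 1) * a f (p ^ j))
  fricke : ∃ ε : ℝ, (ε = 1 ∨ ε = -1) ∧ ∀ τ τ' : ℍ, (τ' : ℂ) * ((N : ℂ) * (τ : ℂ)) = -1 →
    f τ' = (ε : ℂ) * (((Real.sqrt N : ℝ) : ℂ) * (τ : ℂ) / Complex.I) ^ k * f τ

/-- The normalised eigenvalue `λ(n) = a(n) / n^((k-1)/2)`. -/
noncomputable def lam {N : ℕ} {k : ℤ} (f : CuspForm (Gamma0 N : Subgroup (GL (Fin 2) ℝ)) k)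
    (n : ℕ) : ℝ :=
  (a f n).re / (n : ℝ) ^ (((k : ℝ) - 1) / 2)

/-- The Euler factor of `L(f ⊗ ψ, s)` at the prime `p` in the analytic normalisation (level one or
prime level, `ψ` primitive modulo `q`): `(1 - ψ(p) λ(p) p^(-s) + ψ(p)² p^(-2s))⁻¹`, without the last
term if `p ∣ N`.  (It is `1` if `p ∣ q`.) -/
noncomputable def factor {N : ℕ} {k : ℤ} (f : CuspForm (Gamma0 N : Subgroup (GL (Fin 2) ℝ)) k)
    {q : ℕ} (ψ : DirichletCharacter ℂ q) (s : ℂ) (p : ℕ) : ℂ :=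
  (1 - ψ (p : ZMod q) * (lam f p : ℂ) * (p : ℂ) ^ (-s) +
    (if p ∣ N then 0 else ψ (p : ZMod q) ^ 2 * (p : ℂ) ^ (-2 * s)))⁻¹

/-- `L` is the `L`-function `L(f ⊗ ψ, s)`: an entire function, which for `Re s > 1` is the Euler
product of the factors `factor f ψ s p`. -/
def IsL {N : ℕ} {k : ℤ} (f : CuspForm (Gamma0 N : Subgroup (GL (Fin 2) ℝ)) k)
    {q : ℕ} (ψ : DirichletCharacter ℂ q) (L : ℂ → ℂ) : Prop :=
  Differentiable ℂ L ∧ ∀ s : ℂ, 1 < s.re → HasProd (fun p : Nat.Primes => factor f ψ s p) (L s)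

/-- A quadratic character: primitive, of order exactly two. -/
def Quadratic {q : ℕ} (χ : DirichletCharacter ℂ q) : Prop := χ.IsPrimitive ∧ χ ≠ 1 ∧ χ ^ 2 = 1

/-- `φ` is the primitive character which induces the product of `χ` and `ψ`. -/
def IsProduct {q q₁ q₂ : ℕ} (χ : DirichletCharacter ℂ q) (ψ : DirichletCharacter ℂ q₁)
    (φ : DirichletCharacter ℂ q₂) : Prop :=
  φ.IsPrimitive ∧ ∀ n : ℕ, n.Coprime (q * q₁) →
    φ (n : ZMod q₂) = χ (n : ZMod q) * ψ (n : ZMod q₁)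

/-- `L(f ⊗ ψ, 1/2) = 0`. -/
def Vanishes {N : ℕ} {k : ℤ} (f : CuspForm (Gamma0 N : Subgroup (GL (Fin 2) ℝ)) k)
    {q : ℕ} (ψ : DirichletCharacter ℂ q) : Prop :=
  ∃ L : ℂ → ℂ, IsL f ψ L ∧ L (1 / 2) = 0

/-- For every quadratic character `ψ` at least one of `L(f ⊗ ψ, 1/2)` and `L(f ⊗ χψ, 1/2)`
vanishes. -/
def AlwaysVanishes {N : ℕ} {k : ℤ} (f : CuspForm (Gamma0 N : Subgroup (GL (Fin 2) ℝ)) k)
    {q : ℕ} (χ : DirichletCharacter ℂ q) : Prop :=
  ∀ (q₁ q₂ : ℕ), q₁ ≠ 0 → q₂ ≠ 0 → ∀ (ψ : DirichletCharacter ℂ q₁) (φ : DirichletCharacter ℂ q₂),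
    Quadratic ψ → IsProduct χ ψ φ → Vanishes f ψ ∨ Vanishes f φ

section proof

open Pool.Agent.K1H79.RN

theorem isL_iff {N : ℕ} {k : ℤ} (f : CuspForm (Gamma0 N : Subgroup (GL (Fin 2) ℝ)) k)
    {q : ℕ} (ψ : DirichletCharacter ℂ q) (L : ℂ → ℂ) :
    IsL f ψ L ↔ (Differentiable ℂ L ∧ ∀ s : ℂ, 1 < s.re → HasProd (fac f ψ s) (L s)) := Iff.rfl

theorem uniq {N : ℕ} {k : ℤ} (f : CuspForm (Gamma0 N : Subgroup (GL (Fin 2) ℝ)) k)
    {q : ℕ} (ψ : DirichletCharacter ℂ q) (L L' : ℂ → ℂ) (h : IsL f ψ L) (h' : IsL f ψ L') :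
    L = L' :=
  unique_of_prod h.1 h'.1 h.2 h'.2

theorem ne_zero_of {N : ℕ} (hN : N = 1 ∨ N.Prime) : N ≠ 0 := by
  rcases hN with h | h
  · rw [h]; exact one_ne_zero
  · exact h.ne_zero

theorem newf_of {N : ℕ} {k : ℤ} {f : CuspForm (Gamma0 N : Subgroup (GL (Fin 2) ℝ)) k}
    (hf : IsNewform N k f) : ∃ ε : ℝ, W388.IsNewf N k f ε := by
  obtain ⟨ε, hε, hfr⟩ := hf.fricke
  exact ⟨ε, hf.one, hf.real, hf.mul, hf.pow, hε, hfr⟩

theorem exists_L {N : ℕ} (hN : N = 1 ∨ N.Prime) {k : ℤ} (hk : 1 ≤ k)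
    {f : CuspForm (Gamma0 N : Subgroup (GL (Fin 2) ℝ)) k} (hf : IsNewform N k f)
    {q : ℕ} (hq : q ≠ 0) (ψ : DirichletCharacter ℂ q) (hψ : ψ.IsPrimitive) (h2 : ψ ^ 2 = 1) :
    ∃ L : ℂ → ℂ, IsL f ψ L := by
  have : NeZero q := ⟨hq⟩
  have : NeZero N := ⟨ne_zero_of hN⟩
  obtain ⟨ε, hf'⟩ := newf_of hf
  have hw : (Nat.Coprime q N) ∨ (N ∣ q) := by
    rcases hN with h | h
    · left; rw [h]; exact Nat.coprime_one_right _
    · by_cases h1 : N ∣ q
      · exact Or.inr h1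
      · exact Or.inl ((Nat.Prime.coprime_iff_not_dvd h).2 h1).symm
  rcases hw with h | h
  · obtain ⟨F, h1, h3, -⟩ := exists_center hk hf' q ψ hψ h2 _ (Or.inl ⟨h, rfl⟩)
    exact ⟨F, h1, h3⟩
  · obtain ⟨F, h1, h3, -⟩ := exists_center hk hf' q ψ hψ h2 _ (Or.inr ⟨h, rfl⟩)
    exact ⟨F, h1, h3⟩

theorem always {N : ℕ} (hN : N = 1 ∨ N.Prime) {k : ℤ} (hk : 1 ≤ k) (hke : Even k)
    {f : CuspForm (Gamma0 N : Subgroup (GL (Fin 2) ℝ)) k} (hf : IsNewform N k f)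
    {q : ℕ} (hq : q ≠ 0) (χ : DirichletCharacter ℂ q) (h2 : χ ^ 2 = 1)
    (hodd : χ (-1) = -1) (hN1 : χ (N : ZMod q) = 1) : AlwaysVanishes f χ := by
  intro q₁ q₂ hq₁ hq₂ ψ φ hψ hφ
  have : NeZero q := ⟨hq⟩
  have : NeZero q₁ := ⟨hq₁⟩
  have : NeZero q₂ := ⟨hq₂⟩
  have : NeZero N := ⟨ne_zero_of hN⟩
  obtain ⟨ε, hf'⟩ := newf_of hf
  obtain ⟨F, G, hF, hG, h0⟩ := product_zero hN hk hke hf' (χ := χ) (ψ := ψ) (φ := φ)
    ⟨h2, hψ.2.2, hψ.1, hφ.1, hφ.2⟩ hodd hN1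
  rcases mul_eq_zero.1 h0 with h | h
  · exact Or.inl ⟨F, hF, h⟩
  · exact Or.inr ⟨G, hG, h⟩

instance fact7 : Fact (Nat.Prime 7) := ⟨by norm_num⟩

/-- the quadratic character of `ℚ(√-7)` -/
noncomputable def χ₇ : DirichletCharacter ℂ 7 :=
  (quadraticChar (ZMod 7)).ringHomComp (Int.castRingHom ℂ)

theorem q7a : quadraticChar (ZMod 7) (-1) = -1 := by decide +kernel

theorem q7b : quadraticChar (ZMod 7) 11 = 1 := by decide +kernel

theorem χ₇_sq : χ₇ ^ 2 = 1 :=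
  ((quadraticChar_isQuadratic (ZMod 7)).comp (Int.castRingHom ℂ)).sq_eq_one

end proof

/-- **The negated form of Q1.**
(1) For every newform `f` of level `N = 1` or of prime level `N` and every real primitive character
`ψ` the `L`-function `L(f ⊗ ψ, s)` exists (an entire function with the Euler product for `Re s > 1`),
and it is unique.
(2) For every newform `f` of level `N = 1` or of prime level `N`, of even weight, and every quadratic
character `χ` with `χ(-1) = -1` and `χ(N) = 1`, for every quadratic character `ψ` at least one of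
`L(f ⊗ ψ, 1/2)` and `L(f ⊗ χψ, 1/2)` vanishes.
(3) The newform `f(z) = η(z)² η(11z)²` of weight `2` and level `11`, with
`a(p) = p + 1 - #E(𝔽_p)` for the elliptic curve `E : y² = x³ - 13392 x - 1080432` (isomorphic to
`X_0(11)`), has this property for all quadratic `χ` with `χ(-1) = -1`, `χ(11) = 1`, for example for
the quadratic character of `ℚ(√-7)`. -/
theorem result :
    (∀ (N : ℕ) (k : ℤ) (f : CuspForm (Gamma0 N : Subgroup (GL (Fin 2) ℝ)) k),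
      (N = 1 ∨ N.Prime) → 1 ≤ k → IsNewform N k f →
      ∀ (q : ℕ) (ψ : DirichletCharacter ℂ q), q ≠ 0 → ψ.IsPrimitive → ψ ^ 2 = 1 →
        ∃! L : ℂ → ℂ, IsL f ψ L) ∧
    (∀ (N : ℕ) (k : ℤ) (f : CuspForm (Gamma0 N : Subgroup (GL (Fin 2) ℝ)) k),
      (N = 1 ∨ N.Prime) → 1 ≤ k → Even k → IsNewform N k f →
      ∀ (q : ℕ) (χ : DirichletCharacter ℂ q), q ≠ 0 → Quadratic χ → χ (-1) = -1 →
        χ (N : ZMod q) = 1 → AlwaysVanishes f χ) ∧
    (∃ f : CuspForm (Gamma0 11 : Subgroup (GL (Fin 2) ℝ)) 2,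
      (∀ z : ℍ, f z = ModularForm.eta z ^ 2 * ModularForm.eta (11 * z) ^ 2) ∧
      IsNewform 11 2 f ∧
      (∀ p : ℕ, p.Prime → ¬ ((p : ℤ) ∣ 2 * (-4 * (-13392) ^ 3 - 27 * (-1080432) ^ 2)) →
        a f p = (p : ℂ) - (Nat.card {q : ZMod p × ZMod p //
          q.2 ^ 2 = q.1 ^ 3 + ((-13392 : ℤ) : ZMod p) * q.1 + ((-1080432 : ℤ) : ZMod p)} : ℂ)) ∧
      (∀ (q : ℕ) (χ : DirichletCharacter ℂ q), q ≠ 0 → Quadratic χ → χ (-1) = -1 →
        χ (11 : ZMod q) = 1 → AlwaysVanishes f χ) ∧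
      ∃ χ : DirichletCharacter ℂ 7, Quadratic χ ∧ χ (-1) = -1 ∧ χ (11 : ZMod 7) = 1 ∧
        AlwaysVanishes f χ) := by
  have hnew : IsNewform 11 2 Pool.Agent.W97.TW.f11 := by
    have h := Pool.Agent.Y702.M.newf
    exact ⟨h.one, h.real, h.mul, h.pow, 1, Or.inl rfl, h.fricke⟩
  have hall : ∀ (q : ℕ) (χ : DirichletCharacter ℂ q), q ≠ 0 → Quadratic χ → χ (-1) = -1 →
        χ (11 : ZMod q) = 1 → AlwaysVanishes Pool.Agent.W97.TW.f11 χ := by
    intro q χ hq hχ hodd h11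
    exact always (N := 11) (Or.inr (by norm_num)) (by norm_num) (by decide) hnew hq χ hχ.2.2 hodd
      (by exact_mod_cast h11)
  refine ⟨?_, ?_, Pool.Agent.W97.TW.f11, Pool.Agent.W97.TW.f11_apply, hnew, ?_, hall, ?_⟩
  · intro N k f hN hk hf q ψ hq hψ h2
    obtain ⟨L, hL⟩ := exists_L hN hk hf hq ψ hψ h2
    exact ⟨L, hL, fun L' hL' => uniq f ψ L' L hL' hL⟩
  · intro N k f hN hk hke hf q χ hq hχ hodd hN1
    exact always hN hk hke hf hq χ hχ.2.2 hodd hN1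
  · intro p hp hd
    exact (Pool.Agent.Y18.BSD.Eleven.isFormOf.points p ⟨hp, hd⟩).2
  · have hodd : χ₇ (-1) = -1 := by
      rw [χ₇, MulChar.ringHomComp_apply, q7a]
      simp
    have h11 : χ₇ (11 : ZMod 7) = 1 := by
      rw [χ₇, MulChar.ringHomComp_apply, q7b]
      simp
    have hne : χ₇ ≠ 1 := by
      intro h
      rw [h, MulChar.one_apply (isUnit_one.neg)] at hodd
      norm_num at hodd
    have hsq : χ₇ ^ 2 = 1 := χ₇_sq
    have hp : χ₇.IsPrimitive := by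
      have h1 : χ₇.conductor ∣ 7 := DirichletCharacter.conductor_dvd_level _
      rcases (Nat.dvd_prime fact7.out).1 h1 with h | h
      · exact absurd ((DirichletCharacter.eq_one_iff_conductor_eq_one (χ := χ₇)).2 h) hne
      · exact h
    exact ⟨χ₇, ⟨hp, hne, hsq⟩, hodd, h11, hall 7 χ₇ (by norm_num) ⟨hp, hne, hsq⟩ hodd h11⟩

end Pool.Agent.Results.MP_d17ed7_nt.RootNumberObstruction
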